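import Pool.Agent.Q97.Renorm
import Pool.Agent.Q97.L2Sum

set_option autoImplicit false

/-!
# Almost isometric and isometric embeddings of finite metric spaces
-/

namespace Pool.Agent.Results.MP_6d826c_an.FinitePointSpace

/-- The metric space `M` embeds isometrically into `X`. -/
def EmbedsIsometrically (M X : Type*) [MetricSpace M] [NormedAddCommGroup X] : Prop :=
  ∃ f : M → X, ∀ a b, ‖f a - f b‖ = dist a b

/-- The metric space `M` embeds almost isometrically into `X`. -/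
def EmbedsAlmostIsometrically (M X : Type*) [MetricSpace M] [NormedAddCommGroup X] : Prop :=
  ∀ ε : ℝ, 0 < ε → ∃ f : M → X, ∀ a b,
    dist a b ≤ ‖f a - f b‖ ∧ ‖f a - f b‖ ≤ (1 + ε) * dist a b

open Q97

/-- The underlying plane. -/
abbrev V := ℝ × ℝ

/-- The square of the norm with parameter `t`. -/
def sq (t : ℝ) (u : V) : ℝ := u.1 ^ 2 + u.2 ^ 2 + t * (|u.1| + |u.2|) ^ 2

/-- The symmetric form attached to `sq`. -/
def form (t : ℝ) (u v : V) : ℝ :=
  |u.1| * |v.1| + |u.2| * |v.2| + t * ((|u.1| + |u.2|) * (|v.1| + |v.2|))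

theorem sq_nonneg' {t : ℝ} (ht : 0 ≤ t) (u : V) : 0 ≤ sq t u := by unfold sq; positivity

theorem sq_add_le {t : ℝ} (ht : 0 ≤ t) (u v : V) :
    sq t (u + v) ≤ sq t u + sq t v + 2 * form t u v := by
  unfold sq form
  rw [Prod.fst_add, Prod.snd_add]
  have h1 := abs_add_le u.1 v.1
  have h2 := abs_add_le u.2 v.2
  have h3 : (|u.1 + v.1| + |u.2 + v.2|) ^ 2 ≤ ((|u.1| + |u.2|) + (|v.1| + |v.2|)) ^ 2 :=
    pow_le_pow_left₀ (by positivity) (by linarith) 2
  have h4 := mul_le_mul_of_nonneg_left h3 ht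
  have h5 : u.1 * v.1 ≤ |u.1| * |v.1| := by rw [← abs_mul]; exact le_abs_self _
  have h6 : u.2 * v.2 ≤ |u.2| * |v.2| := by rw [← abs_mul]; exact le_abs_self _
  nlinarith

theorem form_le {t : ℝ} (ht : 0 ≤ t) (u v : V) :
    form t u v ^ 2 ≤ sq t u * sq t v := by
  unfold sq form
  have h1 : u.1 ^ 2 = |u.1| ^ 2 := (sq_abs _).symm
  have h2 : u.2 ^ 2 = |u.2| ^ 2 := (sq_abs _).symm
  have h3 : v.1 ^ 2 = |v.1| ^ 2 := (sq_abs _).symm
  have h4 : v.2 ^ 2 = |v.2| ^ 2 := (sq_abs _).symm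
  rw [h1, h2, h3, h4]
  set p := |u.1|
  set q := |u.2|
  set r := |v.1|
  set s := |v.2|
  have key : (p ^ 2 + q ^ 2 + t * (p + q) ^ 2) * (r ^ 2 + s ^ 2 + t * (r + s) ^ 2) -
      (p * r + q * s + t * ((p + q) * (r + s))) ^ 2 =
      (p * s - q * r) ^ 2 + t * ((p * (r + s) - r * (p + q)) ^ 2 +
        (q * (r + s) - s * (p + q)) ^ 2) := by ring
  have : 0 ≤ (p * s - q * r) ^ 2 + t * ((p * (r + s) - r * (p + q)) ^ 2 +
        (q * (r + s) - s * (p + q)) ^ 2) := by positivity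
  linarith

/-- The norm with parameter `t`. -/
noncomputable def nrm (t : ℝ) (u : V) : ℝ := Real.sqrt (sq t u)

theorem nrm_sq {t : ℝ} (ht : 0 ≤ t) (u : V) : nrm t u ^ 2 = sq t u :=
  Real.sq_sqrt (sq_nonneg' ht u)

theorem nrm_add_le {t : ℝ} (ht : 0 ≤ t) (u v : V) : nrm t (u + v) ≤ nrm t u + nrm t v := by
  apply Real.sqrt_le_iff.mpr
  refine ⟨add_nonneg (Real.sqrt_nonneg _) (Real.sqrt_nonneg _), ?_⟩
  have h1 := sq_add_le ht u v
  have h2 : form t u v ≤ nrm t u * nrm t v := by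
    have hn : 0 ≤ nrm t u * nrm t v := mul_nonneg (Real.sqrt_nonneg _) (Real.sqrt_nonneg _)
    apply le_of_sq_le_sq _ hn
    rw [mul_pow, nrm_sq ht, nrm_sq ht]
    exact form_le ht u v
  have h3 := nrm_sq ht u
  have h4 := nrm_sq ht v
  nlinarith

theorem nrm_smul (t c : ℝ) (u : V) : nrm t (c • u) = ‖c‖ * nrm t u := by
  unfold nrm
  have : sq t (c • u) = c ^ 2 * sq t u := by
    unfold sq
    rw [Prod.smul_fst, Prod.smul_snd, smul_eq_mul, smul_eq_mul, abs_mul, abs_mul]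
    rw [← sq_abs c]
    have h1 : (c * u.1) ^ 2 = |c| ^ 2 * u.1 ^ 2 := by rw [mul_pow, sq_abs]
    have h2 : (c * u.2) ^ 2 = |c| ^ 2 * u.2 ^ 2 := by rw [mul_pow, sq_abs]
    rw [h1, h2]
    ring
  rw [this, Real.sqrt_mul (sq_nonneg c), Real.sqrt_sq_eq_abs, Real.norm_eq_abs]

/-- The equivalent norm with parameter `t` on the plane. -/
noncomputable def E (t : unitInterval) : EqNorm ℝ V where
  N := nrm t
  add_le := nrm_add_le t.2.1
  smul := nrm_smul t
  C := 1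
  le u := by
    rw [one_mul, Prod.norm_def]
    have ht : (0 : ℝ) ≤ t := t.2.1
    have h0 : 0 ≤ (t : ℝ) * (|u.1| + |u.2|) ^ 2 := by positivity
    apply max_le
    · apply Real.le_sqrt_of_sq_le
      unfold sq
      rw [Real.norm_eq_abs, sq_abs]
      nlinarith [sq_nonneg u.2]
    · apply Real.le_sqrt_of_sq_le
      unfold sq
      rw [Real.norm_eq_abs, sq_abs]
      nlinarith [sq_nonneg u.1]
  D := 3
  ge u := by
    apply Real.sqrt_le_iff.mpr
    refine ⟨by positivity, ?_⟩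
    have h1 : |u.1| ≤ ‖u‖ := norm_fst_le u
    have h2 : |u.2| ≤ ‖u‖ := norm_snd_le u
    have h3 := abs_nonneg u.1
    have h4 := abs_nonneg u.2
    unfold sq
    rw [← sq_abs u.1, ← sq_abs u.2]
    have h5 : (t : ℝ) * (|u.1| + |u.2|) ^ 2 ≤ 1 * (|u.1| + |u.2|) ^ 2 :=
      mul_le_mul_of_nonneg_right t.2.2 (sq_nonneg _)
    nlinarith [norm_nonneg u]

/-- The two-dimensional space with parameter `t`. -/
abbrev F (t : unitInterval) : Type := (E t).Space

theorem norm_F_sq (t : unitInterval) (u : F t) : ‖u‖ ^ 2 = sq t ((E t).toSpace.symm u) :=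
  nrm_sq t.2.1 _

/-- The first key inequality (uniform convexity). -/
theorem ineq_convex (t : unitInterval) (u v : F t) :
    ‖u + v‖ ^ 2 + (1 / 3) * ‖u - v‖ ^ 2 ≤ 2 * ‖u‖ ^ 2 + 2 * ‖v‖ ^ 2 := by
  rw [norm_F_sq, norm_F_sq, norm_F_sq, norm_F_sq, map_add, map_sub]
  set a : V := (E t).toSpace.symm u
  set b : V := (E t).toSpace.symm v
  have ht0 : (0 : ℝ) ≤ t := t.2.1
  have ht1 : (t : ℝ) ≤ 1 := t.2.2
  unfold sq
  simp only [Prod.fst_add, Prod.snd_add, Prod.fst_sub, Prod.snd_sub]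
  have h1 := abs_add_le a.1 b.1
  have h2 := abs_add_le a.2 b.2
  have h3 : (|a.1 + b.1| + |a.2 + b.2|) ^ 2 ≤ 2 * (|a.1| + |a.2|) ^ 2 + 2 * (|b.1| + |b.2|) ^ 2 := by
    have : (|a.1 + b.1| + |a.2 + b.2|) ^ 2 ≤ ((|a.1| + |a.2|) + (|b.1| + |b.2|)) ^ 2 :=
      pow_le_pow_left₀ (by positivity) (by linarith) 2
    nlinarith [sq_nonneg ((|a.1| + |a.2|) - (|b.1| + |b.2|))]
  have h4 := mul_le_mul_of_nonneg_left h3 ht0
  have h5 : (t : ℝ) * (|a.1 - b.1| + |a.2 - b.2|) ^ 2 ≤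
      2 * ((a.1 - b.1) ^ 2 + (a.2 - b.2) ^ 2) := by
    have h6 : (|a.1 - b.1| + |a.2 - b.2|) ^ 2 ≤ 2 * ((a.1 - b.1) ^ 2 + (a.2 - b.2) ^ 2) := by
      rw [← sq_abs (a.1 - b.1), ← sq_abs (a.2 - b.2)]
      nlinarith [sq_nonneg (|a.1 - b.1| - |a.2 - b.2|)]
    calc (t : ℝ) * (|a.1 - b.1| + |a.2 - b.2|) ^ 2 ≤ 1 * (|a.1 - b.1| + |a.2 - b.2|) ^ 2 :=
          mul_le_mul_of_nonneg_right ht1 (sq_nonneg _)
      _ ≤ _ := by rw [one_mul]; exact h6
  nlinarith

/-- The second key inequality. -/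
theorem ineq_key (t : unitInterval) (ht : (t : ℝ) < 1) (u v : F t) :
    ‖u + v‖ ^ 2 + ‖u - v‖ ^ 2 ≤ 3 * (‖u‖ ^ 2 + ‖v‖ ^ 2) ∧
    ((u ≠ 0 ∨ v ≠ 0) → ‖u + v‖ ^ 2 + ‖u - v‖ ^ 2 < 3 * (‖u‖ ^ 2 + ‖v‖ ^ 2)) := by
  have hu0 : u ≠ 0 → (E t).toSpace.symm u ≠ 0 := fun h h' => h (by simpa using h')
  have hv0 : v ≠ 0 → (E t).toSpace.symm v ≠ 0 := fun h h' => h (by simpa using h')
  rw [norm_F_sq, norm_F_sq, norm_F_sq, norm_F_sq, map_add, map_sub]
  set a : V := (E t).toSpace.symm u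
  set b : V := (E t).toSpace.symm v
  have ht0 : (0 : ℝ) ≤ t := t.2.1
  obtain ⟨a1, a2⟩ := a
  obtain ⟨b1, b2⟩ := b
  -- the sum of squares
  set S : ℝ := a1 ^ 2 + a2 ^ 2 + b1 ^ 2 + b2 ^ 2 with hS
  have hS0 : 0 ≤ S := by positivity
  have hSpos : (u ≠ 0 ∨ v ≠ 0) → 0 < S := by
    rintro (h | h)
    · have h1 := hu0 h
      by_contra hcon
      have h2 : a1 = 0 := by nlinarith [sq_nonneg a1, sq_nonneg a2, sq_nonneg b1, sq_nonneg b2]
      have h3 : a2 = 0 := by nlinarith [sq_nonneg a1, sq_nonneg a2, sq_nonneg b1, sq_nonneg b2]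
      exact h1 (by rw [h2, h3]; rfl)
    · have h1 := hv0 h
      by_contra hcon
      have h2 : b1 = 0 := by nlinarith [sq_nonneg a1, sq_nonneg a2, sq_nonneg b1, sq_nonneg b2]
      have h3 : b2 = 0 := by nlinarith [sq_nonneg a1, sq_nonneg a2, sq_nonneg b1, sq_nonneg b2]
      exact h1 (by rw [h2, h3]; rfl)
  -- the mixed term
  have hmix : |(a1 + b1) * (a2 + b2)| + |(a1 - b1) * (a2 - b2)| ≤
      2 * max (|a1 * a2| + |b1 * b2|) (S / 2) := by
    have h1 : |(a1 + b1) * (a2 + b2)| + |(a1 - b1) * (a2 - b2)| ≤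
        max (|2 * (a1 * a2 + b1 * b2)|) (|2 * (a1 * b2 + b1 * a2)|) := by
      have e1 : (a1 + b1) * (a2 + b2) + (a1 - b1) * (a2 - b2) = 2 * (a1 * a2 + b1 * b2) := by ring
      have e2 : (a1 + b1) * (a2 + b2) - (a1 - b1) * (a2 - b2) = 2 * (a1 * b2 + b1 * a2) := by ring
      rw [← e1, ← e2]
      rcases abs_cases ((a1 + b1) * (a2 + b2)) with ⟨h1, -⟩ | ⟨h1, -⟩ <;>
      rcases abs_cases ((a1 - b1) * (a2 - b2)) with ⟨h2, -⟩ | ⟨h2, -⟩ <;> rw [h1, h2]
      · exact le_max_of_le_left (le_abs_self _)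
      · apply le_max_of_le_right
        rw [← sub_eq_add_neg]
        exact le_abs_self _
      · apply le_max_of_le_right
        have := neg_le_abs ((a1 + b1) * (a2 + b2) - (a1 - b1) * (a2 - b2))
        linarith
      · apply le_max_of_le_left
        have := neg_le_abs ((a1 + b1) * (a2 + b2) + (a1 - b1) * (a2 - b2))
        linarith
    refine h1.trans (max_le ?_ ?_)
    · rw [abs_mul, abs_two]
      have h2 := abs_add_le (a1 * a2) (b1 * b2)
      have h3 := le_max_left (|a1 * a2| + |b1 * b2|) (S / 2)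
      linarith
    · rw [abs_mul, abs_two]
      have h2 : |a1 * b2 + b1 * a2| ≤ S / 2 := by
        rw [abs_le]
        constructor <;> nlinarith [sq_nonneg (a1 + b2), sq_nonneg (b1 + a2), sq_nonneg (a1 - b2),
          sq_nonneg (b1 - a2)]
      have h3 := le_max_right (|a1 * a2| + |b1 * b2|) (S / 2)
      linarith
  set P : ℝ := |a1 * a2| + |b1 * b2| with hP
  have hP0 : 0 ≤ P := by positivity
  have eL : sq t ((a1, a2) + (b1, b2)) + sq t ((a1, a2) - (b1, b2)) = 2 * (1 + t) * S +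
      2 * t * (|(a1 + b1) * (a2 + b2)| + |(a1 - b1) * (a2 - b2)|) := by
    unfold sq
    simp only [Prod.mk_add_mk, Prod.mk_sub_mk]
    rw [abs_mul, abs_mul, hS]
    have h1 : (|a1 + b1| + |a2 + b2|) ^ 2 = (a1 + b1) ^ 2 + (a2 + b2) ^ 2 +
        2 * (|a1 + b1| * |a2 + b2|) := by
      rw [← sq_abs (a1 + b1), ← sq_abs (a2 + b2)]; ring
    have h2 : (|a1 - b1| + |a2 - b2|) ^ 2 = (a1 - b1) ^ 2 + (a2 - b2) ^ 2 +
        2 * (|a1 - b1| * |a2 - b2|) := by
      rw [← sq_abs (a1 - b1), ← sq_abs (a2 - b2)]; ring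
    rw [h1, h2]
    ring
  have eR : sq t (a1, a2) + sq t (b1, b2) = (1 + t) * S + 2 * t * P := by
    unfold sq
    simp only
    rw [hP, abs_mul, abs_mul, hS]
    have h1 : (|a1| + |a2|) ^ 2 = a1 ^ 2 + a2 ^ 2 + 2 * (|a1| * |a2|) := by
      rw [← sq_abs a1, ← sq_abs a2]; ring
    have h2 : (|b1| + |b2|) ^ 2 = b1 ^ 2 + b2 ^ 2 + 2 * (|b1| * |b2|) := by
      rw [← sq_abs b1, ← sq_abs b2]; ring
    rw [h1, h2]
    ring
  rw [eL, eR]
  have h1 : 2 * (t : ℝ) * (|(a1 + b1) * (a2 + b2)| + |(a1 - b1) * (a2 - b2)|) ≤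
      2 * t * (2 * max P (S / 2)) := mul_le_mul_of_nonneg_left hmix (by positivity)
  have htP : 0 ≤ (t : ℝ) * P := by positivity
  have htS : (t : ℝ) * S ≤ S := by nlinarith
  rcases max_choice P (S / 2) with h | h <;> rw [h] at h1
  · constructor
    · nlinarith
    · intro hne
      have := hSpos hne
      nlinarith
  · constructor
    · nlinarith
    · intro hne
      have h2 := hSpos hne
      have h3 : (t : ℝ) * S < S := by nlinarith
      nlinarith

/-- The parameters `t n = (n + 1) / (n + 2)`. -/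
noncomputable def tt (n : ℕ) : unitInterval := ⟨((n : ℝ) + 1) / (n + 2), by positivity, by
  rw [div_le_one (by positivity)]; linarith⟩

theorem tt_lt (n : ℕ) : (tt n : ℝ) < 1 := by
  change ((n : ℝ) + 1) / (n + 2) < 1
  rw [div_lt_one (by positivity)]; linarith

theorem tt_pos (n : ℕ) : 0 < (tt n : ℝ) := by
  change 0 < ((n : ℝ) + 1) / (n + 2)
  positivity

/-- The space of the example. -/
noncomputable abbrev X := lp (fun n : ℕ => F (tt n)) 2

theorem X_convex (x y : X) : ‖x + y‖ ^ 2 + (1 / 3) * ‖x - y‖ ^ 2 ≤ 2 * ‖x‖ ^ 2 + 2 * ‖y‖ ^ 2 := by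
  have h1 := (L2_hasSum_norm_sq (x + y)).add ((L2_hasSum_norm_sq (x - y)).mul_left (1 / 3))
  have h2 := ((L2_hasSum_norm_sq x).mul_left 2).add ((L2_hasSum_norm_sq y).mul_left 2)
  exact hasSum_le (fun n => ineq_convex (tt n) (x n) (y n)) h1 h2

instance : UniformConvexSpace X := uniformConvexSpace_of_ineq (by norm_num) X_convex

theorem X_key (x y : X) (hx : x ≠ 0) : ‖x + y‖ ^ 2 + ‖x - y‖ ^ 2 < 3 * (‖x‖ ^ 2 + ‖y‖ ^ 2) := by
  have h1 := (L2_hasSum_norm_sq (x + y)).add (L2_hasSum_norm_sq (x - y))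
  have h2 := ((L2_hasSum_norm_sq x).add (L2_hasSum_norm_sq y)).mul_left 3
  obtain ⟨n, hn⟩ : ∃ n, x n ≠ 0 := by
    by_contra hcon
    push Not at hcon
    apply hx
    apply lp.ext
    funext n
    exact hcon n
  refine hasSum_lt (fun m => (ineq_key (tt m) (tt_lt m) (x m) (y m)).1)
    ((ineq_key (tt n) (tt_lt n) (x n) (y n)).2 (Or.inl hn)) h1 h2

/-- The first unit vector of the plane with parameter `1`. -/
noncomputable def e₁ : F 1 := (E 1).toSpace (1, 0)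

/-- The second unit vector of the plane with parameter `1`. -/
noncomputable def e₂ : F 1 := (E 1).toSpace (0, 1)

theorem norm_one_sq (a b : ℝ) :
    ‖a • e₁ + b • e₂‖ ^ 2 = a ^ 2 + b ^ 2 + (|a| + |b|) ^ 2 := by
  rw [norm_F_sq, map_add, map_smul, map_smul]
  simp [e₁, e₂, sq]

/-- The five-point metric space of the example. -/
abbrev M : Type := ({0, e₁, -e₁, e₂, -e₂} : Set (F 1))

theorem not_embedsIsometrically : ¬ EmbedsIsometrically M X := by
  rintro ⟨f, hf⟩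
  set o : M := ⟨0, by simp⟩
  set p : M := ⟨e₁, by simp⟩
  set p' : M := ⟨-e₁, by simp⟩
  set q : M := ⟨e₂, by simp⟩
  set q' : M := ⟨-e₂, by simp⟩
  have hd : ∀ a b : M, dist a b = ‖(a : F 1) - b‖ := fun a b => by
    rw [Subtype.dist_eq, dist_eq_norm]
  have d1 : ‖e₁‖ ^ 2 = 2 := by
    have := norm_one_sq 1 0
    simp only [one_smul, zero_smul, add_zero] at this
    rw [this]; norm_num
  have d2 : ‖e₂‖ ^ 2 = 2 := by
    have := norm_one_sq 0 1
    simp only [one_smul, zero_smul, zero_add] at this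
    rw [this]; norm_num
  have d3 : ‖e₁ - e₂‖ ^ 2 = 6 := by
    have := norm_one_sq 1 (-1)
    simp only [one_smul, neg_smul, ← sub_eq_add_neg] at this
    rw [this]; norm_num
  have d4 : ‖e₁ + e₂‖ ^ 2 = 6 := by
    have := norm_one_sq 1 1
    simp only [one_smul] at this
    rw [this]; norm_num
  have hpo : ‖f p - f o‖ = ‖e₁‖ := by rw [hf, hd]; simp [p, o]
  have hpo' : ‖f p' - f o‖ = ‖e₁‖ := by rw [hf, hd]; simp [p', o]
  have hqo : ‖f q - f o‖ = ‖e₂‖ := by rw [hf, hd]; simp [q, o]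
  have hqo' : ‖f q' - f o‖ = ‖e₂‖ := by rw [hf, hd]; simp [q', o]
  have hpp : ‖f p - f p'‖ = 2 * ‖e₁‖ := by
    rw [hf, hd]
    change ‖e₁ - -e₁‖ = _
    rw [sub_neg_eq_add, ← two_smul ℝ, norm_smul]
    norm_num
  have hqq : ‖f q - f q'‖ = 2 * ‖e₂‖ := by
    rw [hf, hd]
    change ‖e₂ - -e₂‖ = _
    rw [sub_neg_eq_add, ← two_smul ℝ, norm_smul]
    norm_num
  -- strict convexity
  have hx : f p - f o = -(f p' - f o) := by
    apply eq_of_norm_eq_of_norm_add_eq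
    · rw [norm_neg, hpo, hpo']
    · have : f p - f o + -(f p' - f o) = f p - f p' := by abel
      rw [this, norm_neg, hpp, hpo, hpo']
      ring
  have hy : f q - f o = -(f q' - f o) := by
    apply eq_of_norm_eq_of_norm_add_eq
    · rw [norm_neg, hqo, hqo']
    · have : f q - f o + -(f q' - f o) = f q - f q' := by abel
      rw [this, norm_neg, hqq, hqo, hqo']
      ring
  have h1 : ‖(f p - f o) - (f q - f o)‖ ^ 2 = 6 := by
    rw [sub_sub_sub_cancel_right, hf, hd]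
    exact d3
  have h2 : ‖(f p - f o) + (f q - f o)‖ ^ 2 = 6 := by
    rw [hy, ← sub_eq_add_neg, sub_sub_sub_cancel_right, hf, hd]
    change ‖e₁ - -e₂‖ ^ 2 = 6
    rw [sub_neg_eq_add]
    exact d4
  have hne : f p - f o ≠ 0 := by
    intro h0
    rw [h0, norm_zero] at hpo
    rw [← hpo] at d1
    norm_num at d1
  have h3 := X_key (f p - f o) (f q - f o) hne
  rw [h1, h2, hpo, hqo, d1, d2] at h3
  norm_num at h3

theorem embedsAlmostIsometrically : EmbedsAlmostIsometrically M X := by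
  intro ε hε
  obtain ⟨n, hn⟩ := exists_nat_one_div_lt hε
  set t : ℝ := (tt n : ℝ) with ht
  have ht0 : 0 < t := tt_pos n
  have ht1 : t < 1 := tt_lt n
  -- comparison of the norms
  have hcomp : ∀ w : V, nrm t w ≤ nrm 1 w ∧ nrm 1 w ≤ (Real.sqrt t)⁻¹ * nrm t w := by
    intro w
    have h1 : sq t w ≤ sq 1 w := by
      unfold sq
      nlinarith [sq_nonneg (|w.1| + |w.2|)]
    refine ⟨Real.sqrt_le_sqrt h1, ?_⟩
    rw [inv_mul_eq_div, le_div_iff₀ (Real.sqrt_pos.mpr ht0), nrm, nrm,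
      ← Real.sqrt_mul (sq_nonneg' zero_le_one w)]
    apply Real.sqrt_le_sqrt
    unfold sq
    nlinarith [sq_nonneg w.1, sq_nonneg w.2]
  have hst : (Real.sqrt t)⁻¹ ≤ 1 + ε := by
    have h1 : t⁻¹ = 1 + 1 / ((n : ℝ) + 1) := by
      change (((n : ℝ) + 1) / (n + 2))⁻¹ = _
      field_simp
      ring
    rw [← Real.sqrt_inv, h1]
    apply Real.sqrt_le_iff.mpr
    refine ⟨by positivity, ?_⟩
    nlinarith
  refine ⟨fun a => lp.single 2 n ((E (tt n)).toSpace ((Real.sqrt t)⁻¹ •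
    (E 1).toSpace.symm (a : F 1))), ?_⟩
  intro a b
  have h1 : ‖(lp.single 2 n ((E (tt n)).toSpace ((Real.sqrt t)⁻¹ • (E 1).toSpace.symm (a : F 1))) :
      X) - lp.single 2 n ((E (tt n)).toSpace ((Real.sqrt t)⁻¹ • (E 1).toSpace.symm (b : F 1)))‖ =
      (Real.sqrt t)⁻¹ * nrm t ((E 1).toSpace.symm ((a : F 1) - b)) := by
    rw [← lp.single_sub, lp.norm_single (by norm_num), ← map_sub, ← smul_sub, ← map_sub,
      EqNorm.norm_toSpace]
    change nrm t _ = _
    rw [nrm_smul, Real.norm_eq_abs, abs_of_pos (inv_pos.mpr (Real.sqrt_pos.mpr ht0))]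
  have h2 : dist a b = nrm 1 ((E 1).toSpace.symm ((a : F 1) - b)) := by
    rw [Subtype.dist_eq, dist_eq_norm]
    rfl
  rw [h1, h2]
  obtain ⟨h3, h4⟩ := hcomp ((E 1).toSpace.symm ((a : F 1) - b))
  refine ⟨h4, ?_⟩
  exact mul_le_mul hst h3 (Real.sqrt_nonneg _) (by positivity)

/-- **Theorem.** There are an infinite-dimensional uniformly convex real Banach space `X` and a
finite metric space `M` that embeds almost isometrically, but not isometrically, into `X`. -/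
theorem result : ∃ (X : Type) (_ : NormedAddCommGroup X) (_ : NormedSpace ℝ X)
    (_ : CompleteSpace X), ¬ FiniteDimensional ℝ X ∧ UniformConvexSpace X ∧
    ∃ (M : Type) (_ : MetricSpace M), Finite M ∧ EmbedsAlmostIsometrically M X ∧
      ¬ EmbedsIsometrically M X := by
  refine ⟨X, inferInstance, inferInstance, inferInstance, ?_, inferInstance, M, inferInstance, ?_,
    embedsAlmostIsometrically, not_embedsIsometrically⟩
  · apply not_finiteDimensional_lp (fun n => (E (tt n)).toSpace (1, 0))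
    intro n h0
    have h1 : (E (tt n)).toSpace (1, 0) = (E (tt n)).toSpace 0 := by rw [h0, map_zero]
    have h2 := (E (tt n)).toSpace.injective h1
    have h3 := congrArg Prod.fst h2
    simp at h3
  · exact Set.Finite.to_subtype (by simp)

end Pool.Agent.Results.MP_6d826c_an.FinitePointSpace
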